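import Mathlib
import Pool.Agent.Helper92.FR.GoalsC

set_option autoImplicit false

namespace Pool.Agent.Helper93.FR

open Pool.Agent.Helper81.CC Pool.Agent.Bin Pool.Agent.Helper92.VP Pool.Agent.Helper92.FR

/-- bounds for a state. -/
def Inv (d Y Z : ℕ) (st : Cst) : Prop :=
  st.1.length ≤ d + 1 ∧ (∀ v ∈ st.1, v.length ≤ d ∧ ∀ z ∈ v, z.1.val + z.2.val ≤ Y) ∧
    st.2.val ≤ Z

lemma sz_list {β : Type} [ToData β] (c : ℕ) : ∀ l : List β, (∀ x ∈ l, sz x ≤ c) →
    sz l ≤ (c + 1) * l.length + 1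
  | [], _ => by simp
  | b :: l, h => by
    have h1 := sz_list c l fun x hx => h x (List.mem_cons_of_mem _ hx)
    have h2 := h b List.mem_cons_self
    simp only [sz_cons, List.length_cons]
    nlinarith

lemma inv_sz {d Y Z N : ℕ} {st : Cst} (h : Inv d Y Z st) (hY : Y < 2 ^ N) (hZ : Z < 2 ^ N) :
    sz st ≤ ((8 * N + 4) * d + 2) * (d + 1) + 1 + (4 * N + 1) + 1 := by
  obtain ⟨h1, h2, h3⟩ := h
  have e1 : ∀ v ∈ st.1, sz v ≤ (8 * N + 4) * d + 1 := by
    intro v hv
    obtain ⟨g1, g2⟩ := h2 v hv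
    have e2 : ∀ z ∈ v, sz z ≤ 8 * N + 3 := by
      intro z hz
      have g3 := g2 z hz
      have g4 : sz z.1 ≤ 4 * N + 1 := sz_le_of_lt (by omega)
      have g5 : sz z.2 ≤ 4 * N + 1 := sz_le_of_lt (by omega)
      obtain ⟨z1, z2⟩ := z
      rw [sz_pair]
      simp only at g4 g5
      omega
    calc sz v ≤ (8 * N + 3 + 1) * v.length + 1 := sz_list _ _ e2
      _ ≤ (8 * N + 3 + 1) * d + 1 := Nat.add_le_add_right (Nat.mul_le_mul_left _ g1) 1
  have e3 : sz st.1 ≤ ((8 * N + 4) * d + 2) * (d + 1) + 1 := by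
    calc sz st.1 ≤ ((8 * N + 4) * d + 1 + 1) * st.1.length + 1 := sz_list _ _ e1
      _ ≤ ((8 * N + 4) * d + 1 + 1) * (d + 1) + 1 :=
        Nat.add_le_add_right (Nat.mul_le_mul_left _ h1) 1
  have e4 : sz st.2 ≤ 4 * N + 1 := sz_le_of_lt (by omega)
  obtain ⟨a, b⟩ := st
  rw [sz_pair]
  simp only at e3 e4
  omega

lemma inv_get {d Y Z : ℕ} {st : Cst} (h : Inv d Y Z st) (i l : ℕ) :
    ((st.1.getD i []).getD l (⟨0⟩, ⟨0⟩)).1.val + ((st.1.getD i []).getD l (⟨0⟩, ⟨0⟩)).2.val ≤ Y := by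
  obtain ⟨-, h2, -⟩ := h
  by_cases hi : i < st.1.length
  · rw [List.getD_eq_getElem _ _ hi]
    by_cases hl : l < (st.1[i]).length
    · rw [List.getD_eq_getElem _ _ hl]
      exact (h2 _ (List.getElem_mem hi)).2 _ (List.getElem_mem hl)
    · rw [List.getD_eq_default _ _ (by omega)]
      simp
  · rw [List.getD_eq_default _ _ (by omega : st.1.length ≤ i)]
    simp

lemma nfac_le (d : ℕ) (st : Cst) (g : List Qn) (i : ℕ) : (nfac d st g i).val ≤ 2 * qsc d := by
  unfold nfac
  split_ifs with h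
  · rw [BN.le_def, BN.val_ofNat] at h
    exact h
  · simp

lemma inv_cut {d Y Z : ℕ} {st : Cst} (g : List Qn) (h : Inv d Y Z st) :
    Inv d (5 * qsc d * Y) (5 * qsc d * Z) (cut d st g) := by
  refine ⟨by simp [cut], ?_, ?_⟩
  · intro v hv
    unfold cut at hv
    simp only [List.mem_map, List.mem_range] at hv
    obtain ⟨i, -, rfl⟩ := hv
    refine ⟨by simp, ?_⟩
    intro z hz
    simp only [List.mem_map, List.mem_range] at hz
    obtain ⟨l, -, rfl⟩ := hz
    have h1 := inv_get h i l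
    have h2 := inv_get h (amin d st g) l
    have h3 := nfac_le d st g i
    generalize ((st.1.getD i []).getD l (⟨0⟩, ⟨0⟩)) = a at *
    generalize ((st.1.getD (amin d st g) []).getD l (⟨0⟩, ⟨0⟩)) = b at *
    generalize nfac d st g i = f at *
    split_ifs
    · simp only [BN.val_mul, BN.val_ofNat]
      calc qsc d * a.1.val + qsc d * a.2.val = qsc d * (a.1.val + a.2.val) := by ring
        _ ≤ qsc d * Y := Nat.mul_le_mul_left _ h1
        _ ≤ 5 * qsc d * Y := Nat.mul_le_mul_right _ (by omega)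
    · simp only [BN.val_mul, BN.val_add, BN.val_ofNat]
      calc qsc d * b.1.val + f.val * (a.1.val + b.2.val) +
            (qsc d * b.2.val + f.val * (a.2.val + b.1.val))
          = qsc d * (b.1.val + b.2.val) + f.val * ((a.1.val + a.2.val) + (b.1.val + b.2.val)) := by
            ring
        _ ≤ qsc d * Y + (2 * qsc d) * (Y + Y) :=
            Nat.add_le_add (Nat.mul_le_mul_left _ h2)
              (Nat.mul_le_mul h3 (Nat.add_le_add h1 h2))
        _ = 5 * qsc d * Y := by ring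
  · unfold cut
    simp only [BN.val_mul, BN.val_ofNat]
    obtain ⟨-, -, h3⟩ := h
    calc qsc d * st.2.val ≤ qsc d * Z := Nat.mul_le_mul_left _ h3
      _ ≤ 5 * qsc d * Z := Nat.mul_le_mul_right _ (by omega)

lemma inv_cini (d B : ℕ) : Inv d ((2 * d + 1) * 2 ^ B) 1 (cini d B) := by
  refine ⟨by simp [cini], ?_, by simp [cini]⟩
  intro v hv
  unfold cini at hv
  simp only [List.mem_map, List.mem_range] at hv
  obtain ⟨i, -, rfl⟩ := hv
  refine ⟨by simp, ?_⟩
  intro z hz
  simp only [List.mem_map, List.mem_range] at hz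
  obtain ⟨l, -, rfl⟩ := hz
  split_ifs
  · simp only [BN.val_mul, BN.val_ofNat, BN.val_pow2]
    apply le_of_eq
    ring
  · simp only [BN.val_pow2]
    have : 2 ^ B ≤ (2 * d + 1) * 2 ^ B := Nat.le_mul_of_pos_left _ (by omega)
    omega

lemma inv_iter (d B : ℕ) (s : Cst → Cst)
    (hs : ∀ Y Z st, Inv d Y Z st → Inv d (5 * qsc d * Y) (5 * qsc d * Z) (s st)) (k : ℕ) :
    Inv d ((5 * qsc d) ^ k * ((2 * d + 1) * 2 ^ B)) ((5 * qsc d) ^ k) (s^[k] (cini d B)) := by
  induction k with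
  | zero => simpa using inv_cini d B
  | succ k ih =>
    rw [Function.iterate_succ_apply']
    have := hs _ _ _ ih
    have e1 : 5 * qsc d * ((5 * qsc d) ^ k * ((2 * d + 1) * 2 ^ B)) =
        (5 * qsc d) ^ (k + 1) * ((2 * d + 1) * 2 ^ B) := by ring
    have e2 : 5 * qsc d * (5 * qsc d) ^ k = (5 * qsc d) ^ (k + 1) := by ring
    rw [e1, e2] at this
    exact this

theorem pts (hC : PtcStmt) (hG : PtgStmt) : PtsStmt := by
  intro α _ D P K B k hD hP hK hB hk
  have hd : PolyTime (fun a => nrow (D a)) := by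
    unfold nrow
    fun_prop
  have hini : PolyTime (fun a => cini (nrow (D a)) (B a)) :=
    (hC α (fun a => nrow (D a)) B (fun _ => (([] : List (List (BN × BN))), (⟨0⟩ : BN)))
      (fun _ => []) hd hB (by fun_prop) (by fun_prop)).2.1
  have hstep : PolyTime (fun z : α × Cst => cut (nrow (D z.1)) z.2
      (gtil (D z.1) (cen (nrow (D z.1)) z.2) (P z.1) (K z.1))) := by
    have f1 : PolyTime (fun z : α × Cst => z.1) := by fun_prop
    have f2 : PolyTime (fun z : α × Cst => z.2) := by fun_prop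
    have hD' : PolyTime (fun z : α × Cst => D z.1) := PolyTime.comp hD f1
    have hP' : PolyTime (fun z : α × Cst => P z.1) := PolyTime.comp hP f1
    have hK' : PolyTime (fun z : α × Cst => K z.1) := PolyTime.comp hK f1
    have hB' : PolyTime (fun z : α × Cst => B z.1) := PolyTime.comp hB f1
    have hd' : PolyTime (fun z : α × Cst => nrow (D z.1)) := by
      unfold nrow
      fun_prop
    have hcen : PolyTime (fun z : α × Cst => cen (nrow (D z.1)) z.2) :=
      (hC (α × Cst) (fun z => nrow (D z.1)) (fun z => B z.1) (fun z => z.2)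
        (fun _ => []) hd' hB' f2 (by fun_prop)).2.2
    have hg : PolyTime (fun z : α × Cst =>
        gtil (D z.1) (cen (nrow (D z.1)) z.2) (P z.1) (K z.1)) :=
      (hG (α × Cst) (fun z => D z.1) (fun z => cen (nrow (D z.1)) z.2) (fun z => P z.1)
        (fun z => K z.1) hD' hcen hP' hK').2
    exact (hC (α × Cst) (fun z => nrow (D z.1)) (fun z => B z.1) (fun z => z.2) _
      hd' hB' f2 hg).1
  -- the bound
  have hq : PBd (fun a => qsc (nrow (D a))) := by
    refine PBd.nat (f := fun a => qsc (nrow (D a))) ?_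
    unfold qsc
    fun_prop
  have hN : PBd (fun a => 5 * qsc (nrow (D a)) * k a + (2 * nrow (D a) + 1) + B a + 1) :=
    ((((((PBd.const 5).mul hq).mul (PBd.nat hk)).add
      (((PBd.const 2).mul (PBd.nat hd)).add (PBd.const 1))).add (PBd.nat hB)).add (PBd.const 1))
  set N : α → ℕ := fun a => 5 * qsc (nrow (D a)) * k a + (2 * nrow (D a) + 1) + B a + 1 with hNdef
  have hBd : PBd (fun a => ((8 * N a + 4) * nrow (D a) + 2) * (nrow (D a) + 1) + 1 +
      (4 * N a + 1) + 1) :=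
    ((((((((PBd.const 8).mul hN).add (PBd.const 4)).mul (PBd.nat hd)).add (PBd.const 2)).mul
      ((PBd.nat hd).add (PBd.const 1))).add (PBd.const 1)).add
        (((PBd.const 4).mul hN).add (PBd.const 1))).add (PBd.const 1)
  refine PolyTime.iterate_bd (n := k) (s0 := fun a => cini (nrow (D a)) (B a))
    (step := fun a st => cut (nrow (D a)) st
      (gtil (D a) (cen (nrow (D a)) st) (P a) (K a))) hk hini hstep hBd ?_
  intro a j hj
  set d := nrow (D a) with hdd
  have hinv := inv_iter d (B a) (fun st => cut d st (gtil (D a) (cen d st) (P a) (K a)))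
    (fun Y Z st h => inv_cut _ h) j
  have hQ : 1 ≤ 5 * qsc d := by
    have : 0 < 5 * qsc d := by
      unfold qsc
      positivity
    exact this
  have hp1 : (5 * qsc d) ^ j ≤ 2 ^ (5 * qsc d * k a) := by
    calc (5 * qsc d) ^ j ≤ (5 * qsc d) ^ (k a) := Nat.pow_le_pow_right hQ hj
      _ ≤ (2 ^ (5 * qsc d)) ^ (k a) := Nat.pow_le_pow_left Nat.lt_two_pow_self.le _
      _ = 2 ^ (5 * qsc d * k a) := by rw [← pow_mul]
  have hp2 : 2 * d + 1 ≤ 2 ^ (2 * d + 1) := Nat.lt_two_pow_self.le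
  have hNa : N a = 5 * qsc d * k a + (2 * d + 1) + B a + 1 := rfl
  have hpow : 2 ^ (N a) = 2 * (2 ^ (5 * qsc d * k a) * (2 ^ (2 * d + 1) * 2 ^ B a)) := by
    rw [hNa, pow_succ, pow_add, pow_add]
    ring
  have hpos : 0 < 2 ^ (5 * qsc d * k a) * (2 ^ (2 * d + 1) * 2 ^ B a) := by positivity
  refine inv_sz hinv ?_ ?_
  · have h1 : (5 * qsc d) ^ j * ((2 * d + 1) * 2 ^ B a) ≤
        2 ^ (5 * qsc d * k a) * (2 ^ (2 * d + 1) * 2 ^ B a) :=
      Nat.mul_le_mul hp1 (Nat.mul_le_mul_right _ hp2)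
    omega
  · have h1 : (5 * qsc d) ^ j ≤ 2 ^ (5 * qsc d * k a) * (2 ^ (2 * d + 1) * 2 ^ B a) :=
      hp1.trans (Nat.le_mul_of_pos_right _ (by positivity))
    omega

end Pool.Agent.Helper93.FR
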