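import Pool.Agent.Helper55.FR.GoalsA

namespace Pool.Agent.Helper93.FR

open Finset
open Pool.Agent.Helper55.FR

lemma mem_DifT {V : Type} [Fintype V] [DecidableEq V] (ρ : V → Lab) (T I : Finset V) (x : V) :
    x ∈ DifT ρ T I ↔ (isK (ρ x) ∨ ¬ ((x ∈ T ∧ ρ x = Lab.T) ∨ (x ∈ I ∧ ρ x = Lab.I))) := by
  simp [DifT]

lemma mem_Zs {V : Type} [Fintype V] [DecidableEq V] (n : Equiv.Perm V) (m : V → V) (ρ : V → Lab)
    (x : V) : x ∈ Zs n m ρ ↔
      (isK (ρ x) ∨ ρ (n x) = ρ x ∨ ρ (n.symm x) = ρ x ∨ ρ (m x) = ρ x) := by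
  simp [Zs]

theorem unb (hU : UnsStmt) : UnbStmt := by
  intro V _ _ n m B g T I Q ρ S hC hB hBar hO hS hcl hZ
  have huns := hU V n m B g T I Q ρ S hC hB hBar hO hS hcl hZ
  have hp := hBar.pre
  -- labels on S
  have hlab : ∀ x ∈ S, ρ x = Lab.T ∨ ρ x = Lab.I := by
    intro x hx
    have h1 : x ∉ Zs n m ρ := disjoint_left.1 hZ hx
    rw [mem_Zs] at h1
    push Not at h1
    have h2 := h1.1
    have h3 := hO x
    revert h2 h3
    unfold isK
    cases ρ x <;> simp
  -- neighbours are symmetric
  have hsym : ∀ x y, adj n m x y → adj n m y x := by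
    intro x y h
    rcases h with h | h | h
    · exact Or.inr (Or.inl h)
    · exact Or.inl h
    · exact Or.inr (Or.inr (by rw [h, hC.mm]))
  have hne : ∀ x ∈ S, ∀ y, adj n m x y → ρ y ≠ ρ x := by
    intro x hx y h
    have h1 : x ∉ Zs n m ρ := disjoint_left.1 hZ hx
    rw [mem_Zs] at h1
    push Not at h1
    rcases h with h | h | h
    · rw [h]; exact h1.2.1
    · have : y = n.symm x := by rw [h]; simp
      rw [this]; exact h1.2.2.1
    · rw [h]; exact h1.2.2.2
  have hnb : ∀ x ∈ S, ∀ y, adj n m x y → (ρ y = Lab.T ∨ ρ y = Lab.I) := by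
    intro x hx y h
    by_cases hk : isK (ρ y)
    · have h1 : y ∈ DifT ρ T I := (mem_DifT ρ T I y).2 (Or.inl hk)
      exact hlab y (hcl x hx y h1 h)
    · have h3 := hO y
      revert hk h3
      unfold isK
      cases ρ y <;> simp
  have hS_T : ∀ x ∈ S, x ∈ T → ρ x = Lab.I := by
    intro x hx hxT
    rcases hlab x hx with h | h
    · exfalso
      have h1 := (mem_DifT ρ T I x).1 (hS hx)
      rcases h1 with h1 | h1
      · rw [h] at h1
        revert h1
        unfold isK
        simp
      · exact h1 (Or.inl ⟨hxT, h⟩)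
    · exact h
  -- a vertex of `T` next to a vertex of `I \ S` or of a component off `S` is off `S`
  have hI_S : ∀ x ∈ I, x ∉ S → ∀ y, y ∈ T → adj n m x y → y ∈ T \ S := by
    intro x hx hxS y hy h
    rw [mem_sdiff]
    refine ⟨hy, fun hyS => hxS ?_⟩
    have h1 : ρ y = Lab.I := hS_T y hyS hy
    have h2 := hnb y hyS x (hsym _ _ h)
    have h3 := hne y hyS x (hsym _ _ h)
    refine hcl y hyS x ?_ (hsym _ _ h)
    rw [mem_DifT]
    right
    rintro (⟨h4, h5⟩ | ⟨h4, h5⟩)
    · exact disjoint_left.1 hp.tI h4 hx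
    · rw [h1, h5] at h3
      exact h3 rfl
  have hKD : ∀ K ∈ Q, ∀ x ∈ K, x ∈ DifT ρ T I := by
    intro K hK x hx
    rw [mem_DifT]
    right
    rintro (⟨h4, h5⟩ | ⟨h4, h5⟩)
    · exact disjoint_left.1 (hp.tK K hK) h4 hx
    · exact disjoint_left.1 (hp.iK K hK) h4 hx
  have hK_S : ∀ K ∈ Q, ∀ x ∈ K, x ∉ S → ∀ y, y ∈ T → adj n m x y → y ∈ T \ S := by
    intro K hK x hx hxS y hy h
    rw [mem_sdiff]
    exact ⟨hy, fun hyS => hxS (hcl y hyS x (hKD K hK x hx) (hsym _ _ h))⟩
  -- neighbours of the vertices of `S` with label `I`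
  have hSI : ∀ x ∈ S, ρ x = Lab.I → ∀ y, adj n m x y →
      y ∈ (T \ S) ∪ S.filter fun x => ρ x = Lab.T := by
    intro x hx hxI y h
    have h1 : ρ y = Lab.T := by
      rcases hnb x hx y h with h1 | h1
      · exact h1
      · exfalso
        exact hne x hx y h (by rw [h1, hxI])
    rw [mem_union, mem_sdiff, mem_filter]
    by_cases hyS : y ∈ S
    · exact Or.inr ⟨hyS, h1⟩
    · left
      refine ⟨?_, hyS⟩
      by_contra hyT
      refine hyS (hcl x hx y ?_ h)
      rw [mem_DifT]
      right
      rintro (⟨h4, h5⟩ | ⟨h4, h5⟩)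
      · exact hyT h4
      · rw [h1] at h5
        simp at h5
  -- components
  have hcomp : ∀ K ∈ Q, ∀ x ∈ K, x ∈ S → K ⊆ S := by
    intro K hK x hx hxS
    have h1 := hp.con K hK (K ∩ S) inter_subset_left ⟨x, mem_inter.2 ⟨hx, hxS⟩⟩ (by
      intro a ha b hb hab
      rw [mem_inter] at ha ⊢
      refine ⟨hb, hcl a ha.2 b (hKD K hK b hb) ?_⟩
      rcases hab with h | h | h
      · exact Or.inl h
      · exact Or.inr (Or.inl h)
      · exact Or.inr (Or.inr h.1))
    intro a ha
    rw [← h1] at ha
    exact (mem_inter.1 ha).2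
  have hadjn : ∀ x, adj n m x (n x) := fun x => Or.inl rfl
  have hadjs : ∀ x, adj n m x (n.symm x) := fun x => Or.inr (Or.inl (by simp))
  have hadjm : ∀ x, adj n m x (m x) := fun x => Or.inr (Or.inr rfl)
  refine ⟨⟨⟨?_, ?_, ?_, ?_, ?_, ?_, ?_, ?_, ?_⟩, ?_, ?_⟩, ?_⟩
  · -- tI
    rw [disjoint_left]
    intro x hx hx2
    rw [mem_union, mem_sdiff, mem_filter] at hx hx2
    rcases hx with hx | hx <;> rcases hx2 with hx2 | hx2
    · exact disjoint_left.1 hp.tI hx.1 hx2.1
    · exact hx.2 hx2.1
    · exact hx2.2 hx.1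
    · have h1 := hx.2
      rw [hx2.2] at h1
      simp at h1
  · intro K hK
    rw [mem_filter] at hK
    rw [disjoint_left]
    intro x hx hx2
    rw [mem_union, mem_sdiff, mem_filter] at hx
    rcases hx with hx | hx
    · exact disjoint_left.1 (hp.tK K hK.1) hx.1 hx2
    · exact disjoint_left.1 hK.2 hx2 hx.1
  · intro K hK
    rw [mem_filter] at hK
    rw [disjoint_left]
    intro x hx hx2
    rw [mem_union, mem_sdiff, mem_filter] at hx
    rcases hx with hx | hx
    · exact disjoint_left.1 (hp.iK K hK.1) hx.1 hx2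
    · exact disjoint_left.1 hK.2 hx2 hx.1
  · intro K hK K' hK' hne'
    rw [mem_filter] at hK hK'
    exact hp.kK K hK.1 K' hK'.1 hne'
  · -- cI
    intro x hx
    rw [mem_union, mem_sdiff, mem_filter] at hx
    rcases hx with hx | hx
    · have h1 := hp.cI x hx.1
      refine ⟨mem_union_left _ (hI_S x hx.1 hx.2 _ h1.1 (hadjn x)),
        mem_union_left _ (hI_S x hx.1 hx.2 _ h1.2.1 (hadjs x)), fun hxB =>
        mem_union_left _ (hI_S x hx.1 hx.2 _ (h1.2.2 hxB) (hadjm x))⟩
    · exact ⟨hSI x hx.1 hx.2 _ (hadjn x), hSI x hx.1 hx.2 _ (hadjs x),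
        fun _ => hSI x hx.1 hx.2 _ (hadjm x)⟩
  · -- cK
    intro K hK x hx
    rw [mem_filter] at hK
    have hxS : x ∉ S := disjoint_left.1 hK.2 hx
    have h1 := hp.cK K hK.1 x hx
    refine ⟨?_, ?_, ?_⟩
    · rcases h1.1 with h | h
      · exact Or.inl h
      · exact Or.inr (mem_union_left _ (hK_S K hK.1 x hx hxS _ h (hadjn x)))
    · rcases h1.2.1 with h | h
      · exact Or.inl h
      · exact Or.inr (mem_union_left _ (hK_S K hK.1 x hx hxS _ h (hadjs x)))
    · intro hxB
      rcases h1.2.2 hxB with h | h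
      · exact Or.inl h
      · exact Or.inr (mem_union_left _ (hK_S K hK.1 x hx hxS _ h (hadjm x)))
  · intro K hK
    exact hp.odd K (mem_filter.1 hK).1
  · intro K hK
    exact hp.big K (mem_filter.1 hK).1
  · intro K hK
    exact hp.con K (mem_filter.1 hK).1
  · -- cov
    intro x
    by_cases hxS : x ∈ S
    · rcases hlab x hxS with h | h
      · left
        rw [mem_union, mem_filter]
        exact Or.inr ⟨hxS, h⟩
      · right; left
        rw [mem_union, mem_filter]
        exact Or.inr ⟨hxS, h⟩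
    · rcases hBar.cov x with h | h | ⟨K, hK, h⟩
      · left
        rw [mem_union, mem_sdiff]
        exact Or.inl ⟨h, hxS⟩
      · right; left
        rw [mem_union, mem_sdiff]
        exact Or.inl ⟨h, hxS⟩
      · right; right
        refine ⟨K, ?_, h⟩
        rw [mem_filter]
        refine ⟨hK, ?_⟩
        rw [disjoint_left]
        intro a ha haS
        exact hxS (hcomp K hK a ha haS h)
  · -- sur
    have e1 : ((T \ S) ∪ S.filter fun x => ρ x = Lab.T).card =
        (T \ S).card + (S.filter fun x => ρ x = Lab.T).card := by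
      apply card_union_of_disjoint
      rw [disjoint_left]
      intro x hx hx2
      exact (mem_sdiff.1 hx).2 (mem_filter.1 hx2).1
    have e2 : ((I \ S) ∪ S.filter fun x => ρ x = Lab.I).card =
        (I \ S).card + (S.filter fun x => ρ x = Lab.I).card := by
      apply card_union_of_disjoint
      rw [disjoint_left]
      intro x hx hx2
      exact (mem_sdiff.1 hx).2 (mem_filter.1 hx2).1
    have e3 : (T \ S).card + (T ∩ S).card = T.card := card_sdiff_add_card_inter T S
    have e4 : (I \ S).card + (I ∩ S).card = I.card := card_sdiff_add_card_inter I S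
    have e5 : (Q.filter fun K => Disjoint K S).card + (Q.filter fun K => K ⊆ S).card = Q.card := by
      rw [← card_union_of_disjoint]
      · congr 1
        ext K
        rw [mem_union, mem_filter, mem_filter]
        constructor
        · rintro (h | h)
          · exact h.1
          · exact h.1
        · intro hK
          by_cases hd : Disjoint K S
          · exact Or.inl ⟨hK, hd⟩
          · right
            rw [not_disjoint_iff] at hd
            obtain ⟨a, ha, haS⟩ := hd
            exact ⟨hK, hcomp K hK a ha haS⟩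
      · rw [disjoint_left]
        intro K hK hK2
        rw [mem_filter] at hK hK2
        have h1 := hp.odd K hK.1
        have h2 : K = ∅ := by
          rw [eq_empty_iff_forall_notMem]
          intro a ha
          exact disjoint_left.1 hK.2 ha (hK2.2 ha)
        rw [h2] at h1
        simp at h1
    have e6 := hBar.sur
    rw [e1, e2]
    omega
  · -- the difference region
    ext x
    rw [mem_sdiff, mem_DifT, mem_DifT, mem_union, mem_union, mem_sdiff, mem_sdiff, mem_filter,
      mem_filter]
    by_cases hxS : x ∈ S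
    · have h1 : ¬ isK (ρ x) := by
        rcases hlab x hxS with h | h <;> rw [h] <;> unfold isK <;> simp
      rcases hlab x hxS with h | h
      · simp [hxS, h, h1]
        unfold isK
        simp
      · simp [hxS, h, h1]
        unfold isK
        simp
    · simp [hxS]

end Pool.Agent.Helper93.FR
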