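import Pool.Agent.Helper92.FR.GoalsS

namespace Pool.Agent.Helper93.FR

open Pool.Agent.Helper81.CC Pool.Agent.Bin Pool.Agent.Helper92.VP Pool.Agent.Helper92.FR

theorem mu_ofRQ (q : RQ) : Qn.mu (ofRQ q) ≤ 2 ^ q.bits := by
  obtain ⟨s, a, b⟩ := q
  have ha : a.val < 2 ^ Nat.size a.val := Nat.lt_size_self _
  have hb : b.val < 2 ^ Nat.size b.val := Nat.lt_size_self _
  have e : (2 : ℕ) ^ RQ.bits (s, a, b) = 2 * (2 ^ Nat.size a.val * 2 ^ Nat.size b.val) := by
    unfold RQ.bits
    rw [← pow_add, ← pow_succ']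
    congr 1
    simp only
    omega
  have h1 : 2 ^ Nat.size a.val ≤ 2 ^ Nat.size a.val * 2 ^ Nat.size b.val :=
    Nat.le_mul_of_pos_right _ (by positivity)
  have h2 : 2 ^ Nat.size b.val ≤ 2 ^ Nat.size a.val * 2 ^ Nat.size b.val :=
    Nat.le_mul_of_pos_left _ (by positivity)
  have key : a.val + b.val ≤ 2 ^ RQ.bits (s, a, b) := by
    rw [e]
    omega
  unfold ofRQ
  by_cases hz : b = ⟨0⟩
  · rw [if_pos hz]
    have : Qn.mu Qn.zero = 1 := rfl
    rw [this]
    exact Nat.one_le_two_pow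
  · rw [if_neg hz]
    have hb0 : b.val ≠ 0 := fun h => hz (BN.ext h)
    have hb1 : b.val - 1 + 1 = b.val := by omega
    by_cases hs : s = true
    · rw [if_pos hs]
      show 0 + a.val + ((b - ⟨1⟩).val + 1) ≤ _
      rw [BN.val_sub]
      show 0 + a.val + (b.val - 1 + 1) ≤ _
      omega
    · rw [if_neg hs]
      show a.val + 0 + ((b - ⟨1⟩).val + 1) ≤ _
      rw [BN.val_sub]
      show a.val + 0 + (b.val - 1 + 1) ≤ _
      omega

theorem bits_toRQ {x : Qn} {B : ℕ} (h : Qn.mu x ≤ 2 ^ B) : (toRQ x).bits ≤ 2 * B + 2 := by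
  unfold Qn.mu at h
  have h1 : Nat.size (x.1.val - x.2.1.val + (x.2.1.val - x.1.val)) ≤ B := by
    rw [Nat.size_le]
    omega
  have h2 : Nat.size (x.2.2.val + 1) ≤ B + 1 := by
    rw [Nat.size_le, pow_succ]
    have : 0 < 2 ^ B := by positivity
    omega
  show 1 + Nat.size (x.1.val - x.2.1.val + (x.2.1.val - x.1.val)) + Nat.size (x.2.2.val + 1) ≤ _
  omega

theorem size_mul_pow (m k : ℕ) : Nat.size (m * 2 ^ k) ≤ Nat.size m + k := by
  rw [Nat.size_le, pow_add]
  exact Nat.mul_lt_mul_of_pos_right (Nat.lt_size_self m) (by positivity)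

theorem bits_pad (k : ℕ) (x : RQ) : (padRQ k x).bits ≤ x.bits + 2 * k := by
  have h1 := size_mul_pow x.2.1.val k
  have h2 := size_mul_pow x.2.2.val k
  show 1 + Nat.size (x.2.1.val * 2 ^ k) + Nat.size (x.2.2.val * 2 ^ k) ≤
    1 + Nat.size x.2.1.val + Nat.size x.2.2.val + 2 * k
  omega

theorem mem_le_sum {l : List ℕ} {a : ℕ} (h : a ∈ l) : a ≤ l.sum := by
  induction l with
  | nil => simp at h
  | cons b l ih =>
    rw [List.sum_cons]
    rcases List.mem_cons.1 h with h | h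
    · omega
    · have := ih h
      omega

theorem sum_filter_le {α : Type} (l : List α) (p : α → Bool) (f : α → ℕ) :
    ((l.filter p).map f).sum ≤ (l.map f).sum := by
  induction l with
  | nil => simp
  | cons b l ih =>
    rw [List.filter_cons]
    split_ifs
    · simp only [List.map_cons, List.sum_cons]
      omega
    · simp only [List.map_cons, List.sum_cons]
      omega

theorem sum_le_len {α : Type} (l : List α) (f : α → ℕ) (C : ℕ) (h : ∀ a ∈ l, f a ≤ C) :
    (l.map f).sum ≤ l.length * C := by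
  induction l with
  | nil => simp
  | cons b l ih =>
    have h1 := h b (by simp)
    have h2 := ih fun a ha => h a (by simp [ha])
    simp only [List.map_cons, List.sum_cons, List.length_cons]
    rw [add_mul, one_mul]
    omega

theorem mu_ratio {S : Sys} {r : List RQ × RQ} (hr : r ∈ S.2) {j : ℕ} (hj : qnz (rco r j) = true) :
    Qn.mu (ratio r j) ≤ 2 ^ ssize S := by
  have hlt : j < r.1.length := by
    by_contra hcon
    have : rco r j = (⟨0⟩, ⟨0⟩, ⟨1⟩ - ⟨1⟩) := by
      unfold rco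
      rw [List.getD_eq_default _ _ (by omega)]
      unfold ofRQ
      rw [if_neg (by intro h; exact absurd (congrArg BN.val h) (by decide))]
      rfl
    rw [this] at hj
    unfold qnz at hj
    simp at hj
  have hmem : r.1.getD j (false, ⟨0⟩, ⟨1⟩) ∈ r.1 := by
    rw [List.getD_eq_getElem _ _ hlt]
    exact List.getElem_mem hlt
  have hb : (r.1.getD j (false, ⟨0⟩, ⟨1⟩)).bits ≤ (r.1.map RQ.bits).sum :=
    mem_le_sum (List.mem_map_of_mem hmem)
  have hrow : (r.1.map RQ.bits).sum + r.2.bits ≤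
      (S.2.map fun r => (r.1.map RQ.bits).sum + r.2.bits).sum :=
    mem_le_sum (List.mem_map_of_mem (f := fun r : List RQ × RQ =>
      (r.1.map RQ.bits).sum + r.2.bits) hr)
  have hL : r.2.bits + (r.1.getD j (false, ⟨0⟩, ⟨1⟩)).bits ≤ ssize S := by
    unfold ssize
    omega
  unfold ratio
  calc Qn.mu (Qn.mul (ofRQ r.2) (Qn.inv (rco r j)))
      ≤ Qn.mu (ofRQ r.2) * Qn.mu (Qn.inv (rco r j)) := Qn.mu_mul _ _
    _ ≤ 2 ^ r.2.bits * 2 ^ (r.1.getD j (false, ⟨0⟩, ⟨1⟩)).bits :=
        Nat.mul_le_mul (mu_ofRQ _) ((Qn.mu_inv _).trans (mu_ofRQ _))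
    _ = 2 ^ (r.2.bits + (r.1.getD j (false, ⟨0⟩, ⟨1⟩)).bits) := by rw [pow_add]
    _ ≤ 2 ^ ssize S := Nat.pow_le_pow_right (by norm_num) hL

theorem mu_getD {l : List Qn} {p : Qn → Bool} {C : ℕ} (hC : 1 ≤ C) (h : ∀ x ∈ l, Qn.mu x ≤ C) :
    Qn.mu ((l.find? p).getD Qn.zero) ≤ C := by
  cases hf : l.find? p with
  | none => exact hC
  | some x =>
    rw [Option.getD_some]
    exact h x (List.mem_of_find?_eq_some hf)

theorem mu_big (S : Sys) : Qn.mu (Qn.ofBN (BN.pow2 (4 * ssize S ^ 2))) ≤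
    2 ^ (4 * ssize S ^ 2 + ssize S + 1) := by
  show 2 ^ (4 * ssize S ^ 2) + 0 + (0 + 1) ≤ _
  have h1 : 1 ≤ 2 ^ (4 * ssize S ^ 2) := Nat.one_le_two_pow
  have h2 : 2 ^ (4 * ssize S ^ 2 + 1) ≤ 2 ^ (4 * ssize S ^ 2 + ssize S + 1) :=
    Nat.pow_le_pow_right (by norm_num) (by omega)
  rw [pow_succ] at h2
  omega

theorem mu_small (S : Sys) : 2 ^ ssize S ≤ 2 ^ (4 * ssize S ^ 2 + ssize S + 1) :=
  Nat.pow_le_pow_right (by norm_num) (by omega)

theorem mu_lo (S : Sys) (j : ℕ) : Qn.mu (loS S j) ≤ 2 ^ (4 * ssize S ^ 2 + ssize S + 1) := by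
  unfold loS qmax
  apply mu_getD Nat.one_le_two_pow
  intro x hx
  rcases List.mem_cons.1 hx with h | h
  · rw [h, Qn.mu_neg]
    exact mu_big S
  · rw [List.mem_map] at h
    obtain ⟨r, hr, rfl⟩ := h
    rw [List.mem_filter] at hr
    obtain ⟨hr1, hr2⟩ := hr
    rw [Bool.and_eq_true, Bool.and_eq_true] at hr2
    exact (mu_ratio hr1 hr2.2.1).trans (mu_small S)

theorem mu_up (S : Sys) (j : ℕ) : Qn.mu (upS S j) ≤ 2 ^ (4 * ssize S ^ 2 + ssize S + 1) := by
  unfold upS qmin
  apply mu_getD Nat.one_le_two_pow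
  intro x hx
  rcases List.mem_cons.1 hx with h | h
  · rw [h]
    exact mu_big S
  · rw [List.mem_map] at h
    obtain ⟨r, hr, rfl⟩ := h
    rw [List.mem_filter] at hr
    obtain ⟨hr1, hr2⟩ := hr
    rw [Bool.and_eq_true, Bool.and_eq_true] at hr2
    exact (mu_ratio hr1 hr2.2.1).trans (mu_small S)

theorem mkl : MklStmt := by
  intro S
  constructor
  · set L := ssize S with hL
    have hn : S.1 ≤ L := by
      rw [hL]
      unfold ssize
      omega
    have h1 : ((mkI S).1.map fun z => z.1.bits + z.2.bits).sum ≤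
        S.1 * (2 * (2 * (4 * L ^ 2 + L + 1) + 2) + 2 * L) := by
      have := sum_le_len (mkI S).1 (fun z => z.1.bits + z.2.bits)
        (2 * (2 * (4 * L ^ 2 + L + 1) + 2) + 2 * L) ?_
      · have hlen : (mkI S).1.length = S.1 := by
          unfold mkI
          simp
        rw [hlen] at this
        exact this
      · intro z hz
        have hz' : z ∈ (List.range S.1).map fun j =>
          (toRQ (loS S j), padRQ (ssize S) (toRQ (upS S j))) := hz
        rw [List.mem_map] at hz'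
        obtain ⟨j, _, rfl⟩ := hz'
        have a1 := bits_toRQ (mu_lo S j)
        have a2 := bits_toRQ (mu_up S j)
        have a3 := bits_pad (ssize S) (toRQ (upS S j))
        rw [← hL] at a1 a2 a3
        show (toRQ (loS S j)).bits + (padRQ (ssize S) (toRQ (upS S j))).bits ≤ _
        rw [← hL]
        omega
    have h2 : ((mkI S).2.map fun r => (r.1.map RQ.bits).sum + r.2.bits).sum ≤ L := by
      refine (sum_filter_le S.2 _ _).trans ?_
      rw [hL]
      unfold ssize
      omega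
    have h3 : S.1 * (2 * (2 * (4 * L ^ 2 + L + 1) + 2) + 2 * L) ≤
        L * (2 * (2 * (4 * L ^ 2 + L + 1) + 2) + 2 * L) := Nat.mul_le_mul_right _ hn
    unfold isize
    have h4 : L * (2 * (2 * (4 * L ^ 2 + L + 1) + 2) + 2 * L) + L ≤ 50 * (L + 1) ^ 3 := by
      nlinarith [Nat.zero_le L, Nat.zero_le (L ^ 2), Nat.zero_le (L ^ 3)]
    omega
  · intro hn
    unfold isize
    have hmem : (toRQ (loS S 0), padRQ (ssize S) (toRQ (upS S 0))) ∈ (mkI S).1 := by
      show _ ∈ (List.range S.1).map fun j =>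
          (toRQ (loS S j), padRQ (ssize S) (toRQ (upS S j)))
      exact List.mem_map_of_mem (f := fun j =>
        (toRQ (loS S j), padRQ (ssize S) (toRQ (upS S j)))) (List.mem_range.2 hn)
    have h1 := mem_le_sum (List.mem_map_of_mem (f := fun z : RQ × RQ => z.1.bits + z.2.bits) hmem)
    have h2 : ssize S < Nat.size ((toRQ (upS S 0)).2.2.val * 2 ^ ssize S) := by
      rw [Nat.lt_size]
      apply Nat.le_mul_of_pos_left
      show 0 < (upS S 0).2.2.val + 1
      omega
    have h3 : Nat.size ((toRQ (upS S 0)).2.2.val * 2 ^ ssize S) ≤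
        (padRQ (ssize S) (toRQ (upS S 0))).bits := by
      show _ ≤ 1 + Nat.size ((toRQ (upS S 0)).2.1.val * 2 ^ ssize S) +
        Nat.size ((toRQ (upS S 0)).2.2.val * 2 ^ ssize S)
      omega
    simp only at h1
    omega

end Pool.Agent.Helper93.FR
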